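import Mathlib
import Pool.Agent.P.MP_92a118_co.J.Defs2
import Pool.Agent.P.MP_92a118_co.J.Main2

namespace Pool.Agent.Results.MP_92a118_co.FreeJoin

open Pool.Agent.P.MP_92a118_co

/-- A lattice polytope `P ⊆ ℝ^d` of real index `r` is a free join of at least `2r - d - 1`
compressed Gorenstein polytopes whose dimension is twice their degree, and one more (possibly
empty) lattice polytope. -/
theorem result (d : ℕ) (P : Set (Fin d → ℝ)) (r : ℝ) (hd : 0 < d) (hr : 0 < r)
    (h : HasIndex P r) :
    ∃ (t : ℕ) (Q : Option (Fin t) → Set (Fin d → ℝ)) (s : Fin t → ℕ), 2 * r ≤ d + 1 + t ∧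
      LatticeIso P (freeJoin Q) ∧ IsLatticePolytope (Q none) ∧
      ∀ k, IsGorenstein (Q (some k)) (2 * s k) (s k + 1) ∧ IsCompressed (Q (some k)) :=
  (J.main d P r hd hr h).1

end Pool.Agent.Results.MP_92a118_co.FreeJoin
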