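import Mathlib
import Pool.Agent.P.MP_92a118_co.J.Defs2
import Pool.Agent.P.MP_92a118_co.J.Main2

namespace Pool.Agent.Results.MP_92a118_co.RealIndex

open Pool.Agent.P.MP_92a118_co

/-- Let `P ⊆ ℝ^d` be a lattice polytope, not a lattice pyramid, such that for a real `r > 0` and a
real point `m` the set `rP - m` has `0` in its interior and a lattice polytope as its dual. Then
`3r ≤ 2(d+1)`, and equality forces `d = 3s - 1` and `P ≅ C_s`. A Gorenstein polytope of dimension
`3s - 1` and degree `s` has `r = 2s`. -/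
theorem result (d : ℕ) (P : Set (Fin d → ℝ)) (r : ℝ) (hd : 0 < d) (hr : 0 < r)
    (h : HasIndex P r) (hpyr : ¬ IsLatticePyramid P) :
    3 * r ≤ 2 * (d + 1) ∧
      (3 * r = 2 * (d + 1) → ∃ s : ℕ, d + 1 = 3 * s ∧ LatticeIso P (cayleyC s)) :=
  (J.main d P r hd hr h).2 hpyr

end Pool.Agent.Results.MP_92a118_co.RealIndex
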